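import Pool.Agent.Helper20.Mono.GoalsS
import Pool.Agent.Helper20.Mono.Final2

/-! Packet S8: the slice of an axis. -/

namespace Mono

namespace ZAxis83

open Finset

variable {n : ℕ}

theorem eK_single (k : Fin n) : eK {k} = {(Pi.single k 1 : Fin n → ℤ)} := by
  simp [eK]

/-- No second axis direction with `ψ = 0`. -/
theorem no_second {A Z : Finset (Fin n → ℤ)} {Φ : Fan n} (hTri : Tri A Z Φ) {k : Fin n}
    (hp : ∀ j, j ≠ k → ∃ v ∈ A, ∀ l, l ≠ j → l ≠ k → v l = 0)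
    {F : Finset (Fin n → ℤ)} (hF : F ∈ Φ.mx) {i : Fin n} (hik : i ≠ k)
    (hi : psi Z F (Pi.single i 1) = 0) (hk : psi Z F (Pi.single k 1) = 0) : False := by
  obtain ⟨_, _, _, hd, hvert, hN, _⟩ := hTri
  obtain ⟨v, hv, hvl⟩ := hp i hik
  have h1 := (hN.2.2 F hF).1 v (by
    rw [hvert, mem_sdiff, mem_union]
    exact ⟨Or.inl hv, Finset.disjoint_left.1 hd hv⟩)
  rw [Fin20.psi_eq_dot (Φ.mx_indep F hF) (Φ.mx_card F hF)] at h1
  have h2 : ∑ l, (v l : ℝ) * psi Z F (Pi.single l 1) = 0 := by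
    refine Finset.sum_eq_zero fun l _ => ?_
    by_cases hli : l = i
    · rw [hli, hi, mul_zero]
    · by_cases hlk : l = k
      · rw [hlk, hk, mul_zero]
      · rw [hvl l hli hlk]; simp
  rw [h2] at h1
  norm_num at h1

/-- `e_k` is a generator of height zero. -/
theorem axis_mem {A Z : Finset (Fin n → ℤ)} {Φ : Fan n} (hTri : Tri A Z Φ) {k : Fin n}
    (hk : ∀ d : ℤ, (Pi.single k d : Fin n → ℤ) ∉ A) :
    (Pi.single k 1 : Fin n → ℤ) ∈ Z ∧ Φ.IsFace {(Pi.single k 1 : Fin n → ℤ)} := by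
  classical
  obtain ⟨_, _, _, hd, hvert, hN, _⟩ := hTri
  have hx0 : ∀ i, 0 ≤ (Pi.single k (1 : ℝ) : Fin n → ℝ) i := by
    intro i
    by_cases h : i = k
    · subst h; simp
    · simp [h]
  obtain ⟨F, hF, hc⟩ := Φ.cover (Pi.single k (1 : ℝ)) hx0
  have hsum := sum_crd (Φ.mx_indep F hF) (Φ.mx_card F hF) (Pi.single k (1 : ℝ) : Fin n → ℝ)
  have hnn : ∀ u ∈ F, ∀ i, 0 ≤ u i := fun u hu => Φ.vert_nonneg u (Φ.mx_sub F hF hu)
  have hterm : ∀ u ∈ F, ∀ i, i ≠ k →
      crd F (Pi.single k (1 : ℝ)) u * (u i : ℝ) = 0 := by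
    intro u hu i hik
    have h1 := congrFun hsum i
    rw [Finset.sum_apply, Pi.single_eq_of_ne hik] at h1
    have h2 := (Finset.sum_eq_zero_iff_of_nonneg (fun v hv => by
      have ha := hc v
      have hb : (0 : ℝ) ≤ (v i : ℝ) := by exact_mod_cast hnn v hv i
      simpa using mul_nonneg ha hb)).1 h1 u hu
    simpa using h2
  have hex : ∃ u ∈ F, crd F (Pi.single k (1 : ℝ)) u ≠ 0 := by
    by_contra hcon
    push Not at hcon
    have h1 : ∑ u ∈ F, crd F (Pi.single k (1 : ℝ)) u • toR u = 0 :=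
      Finset.sum_eq_zero fun u hu => by rw [hcon u hu, zero_smul]
    rw [h1] at hsum
    have h2 := congrFun hsum k
    simp at h2
  obtain ⟨u, huF, hu0⟩ := hex
  have hui : ∀ i, i ≠ k → u i = 0 := by
    intro i hik
    have h1 := hterm u huF i hik
    rcases mul_eq_zero.1 h1 with h | h
    · exact absurd h hu0
    · exact_mod_cast h
  have hus : u = Pi.single k (u k) := by
    funext i
    by_cases hik : i = k
    · subst hik; simp
    · rw [hui i hik, Pi.single_eq_of_ne hik]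
  have huA : u ∉ A := by
    rw [hus]
    exact hk (u k)
  have huZ : u ∈ Z := by
    have h1 := Φ.mx_sub F hF huF
    rw [hvert, mem_union] at h1
    exact h1.resolve_left huA
  obtain ⟨j, hj⟩ := hN.2.1 u huZ
  have hjk : j = k := by
    by_contra hjk
    have h1 := hui j hjk
    rw [hj] at h1
    simp at h1
  subst hjk
  refine ⟨hj ▸ huZ, F, hF, ?_⟩
  rw [← hj]
  simpa using huF

end ZAxis83

open Finset in
/-- S8: the slice of an axis. -/
theorem zetaAxis (h9 : CellLat) : ZetaAxis := by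
  intro hFanB hCS hFS hLT hLS hCyc n A b hA hnn h0 hb hind k hk hp
  classical
  obtain ⟨Φ, Z, hTri, _, hB⟩ := hFanB n A b hA hnn h0 hb hind
  obtain ⟨hkZ, hface⟩ := ZAxis83.axis_mem hTri hk
  have hpos : ∀ F ∈ Φ.mx, (Pi.single k 1 : Fin n → ℤ) ∈ F → ∀ i, i ≠ k →
      0 < psi Z F (Pi.single i 1) := by
    intro F hF hkF i hik
    refine lt_of_le_of_ne ((hTri.2.2.2.2.2.1.2.2 F hF).2 i) ?_
    intro h
    exact ZAxis83.no_second hTri hp hF hik h.symm (Fin20.psi_single_of_mem hF hkF hkZ)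
  obtain ⟨hinj, Ψ, hTriΨ, hmx⟩ := hLT n A Z Φ k hTri hkZ hface hpos
  -- the faces containing `e_k`
  have hint : ∀ τ, Φ.IsFace τ → (Pi.single k 1 : Fin n → ℤ) ∈ τ →
      τ ∩ Z = {(Pi.single k 1 : Fin n → ℤ)} := by
    intro τ hτ hkτ
    ext z
    rw [mem_inter, mem_singleton]
    constructor
    · rintro ⟨hz, hzZ⟩
      obtain ⟨i, rfl⟩ := hTri.2.2.2.2.2.1.2.1 z hzZ
      by_contra hne
      have hik : i ≠ k := fun h => hne (by rw [h])
      obtain ⟨F, hF, hs⟩ := hτ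
      have h1 := hpos F hF (hs hkτ) i hik
      rw [Fin20.psi_single_of_mem hF (hs hz) hzZ] at h1
      exact lt_irrefl _ h1
    · rintro rfl
      exact ⟨hkτ, hkZ⟩
  have hkey : ∀ m : ℕ,
      ∑ φ ∈ (cellsS A {k} b).filter (fun φ => dimF (projS {k} φ) + 1 = (cs (projS {k} φ)).card ∧
        m ∣ latDist (projS {k} φ)), (-1) ^ dimF (projS {k} φ) * nvol (projS {k} φ) =
      ∑ φ ∈ (cfaces (projK k A)).filter (fun φ => dimF φ + 1 = (cs φ).card ∧ m ∣ latDist φ),
        (-1) ^ dimF φ * nvol φ := by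
    intro m
    rw [hCS n A Z b Φ hTri hB hb {k} m, hFS n _ _ Ψ hTriΨ m]
    have hls := hLS n A Z Φ Ψ k hTri hkZ hface hpos hinj hTriΨ hmx m
    have h2 : ∑ τ ∈ Ψ.faces.filter (fun τ => τ.Nonempty ∧ τ ⊆ projK k A ∧
        τ.card = (cs τ).card ∧ m ∣ latDist τ), (-1) ^ (τ.card - 1) * (vol τ : ℤ) =
        (-1) ^ n * ∑ τ ∈ Φ.faces.filter (fun τ => Pi.single k 1 ∈ τ ∧ ¬ τ ⊆ Z ∧
          τ.card = (cs τ).card ∧ m ∣ latDistZ Z τ), (-1) ^ (n - τ.card) * (volZ Z τ : ℤ) := by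
      rw [hls, ← mul_assoc, ← pow_add, ← two_mul, pow_mul]
      simp
    rw [h2, Finset.mul_sum]
    refine Finset.sum_congr ?_ ?_
    · ext τ
      simp only [mem_filter, ZAxis83.eK_single]
      constructor
      · rintro ⟨h1, h3, h4⟩
        refine ⟨h1, ?_, h4⟩
        have : (Pi.single k 1 : Fin n → ℤ) ∈ τ ∩ Z := by rw [h3]; simp
        exact (mem_inter.1 this).1
      · rintro ⟨h1, h3, h4⟩
        exact ⟨h1, hint τ ((Φ.mem_faces).1 h1) h3, h4⟩
    · intro τ hτ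
      rw [mem_filter] at hτ
      obtain ⟨h1, h3', h4, _⟩ := hτ
      have h3 := hint τ ((Φ.mem_faces).1 h1) h3'
      have hcard : τ.card ≤ n := by
        obtain ⟨F, hF, hs⟩ := (Φ.mem_faces).1 h1
        exact (Finset.card_le_card hs).trans (Φ.mx_card F hF).le
      have hc1 : (τ \ Z).card + 1 = τ.card := by
        have := Finset.card_sdiff_add_card_inter τ Z
        rw [h3, card_singleton] at this
        exact this
      have hc2 : 0 < (τ \ Z).card := by
        rw [card_pos]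
        by_contra hne
        rw [not_nonempty_iff_eq_empty, sdiff_eq_empty_iff_subset] at hne
        exact h4 hne
      rw [← mul_assoc, ← pow_add]
      congr 1
      have e1 : n + (n - τ.card) = ((τ \ Z).card - 1) + 2 * (n - τ.card + 1) := by omega
      rw [e1, pow_add, pow_mul]
      simp
  unfold zetaS zetaV
  refine hCyc _ _ _ _ (fun φ => latDist (projS {k} φ)) latDist
    (fun φ => (-1) ^ dimF (projS {k} φ) * nvol (projS {k} φ))
    (fun φ => (-1) ^ dimF φ * nvol φ) ?_ ?_ ?_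
  · intro φ hφ
    exact h9 n A b {k} φ (mem_filter.1 hφ).1
  · intro φ hφ
    exact Fin20.latDist_ne_zero hTriΨ.1 hTriΨ.2.1 hTriΨ.2.2.1 (mem_filter.1 hφ).1
  · intro m
    rw [Finset.filter_filter, Finset.filter_filter]
    exact hkey m

end Mono
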